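import Pool.Agent.Y105.HG.Stm

/-!
# Upper democracy of the Haar system and of its dual system (`S_DEM`)
-/

set_option autoImplicit false

open MeasureTheory Filter Topology
open scoped ENNReal

namespace Pool.Agent.Y681.HG

open Pool.Agent.Y105.HG

lemma meas_hs (i : HIx) : Measurable (hs i) := by
  cases i with
  | none => exact measurable_const
  | some i =>
    exact (measurable_const.indicator measurableSet_Ico).sub
      (measurable_const.indicator measurableSet_Ico)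

lemma hs_ne {n : ℕ} {k : Fin (2 ^ n)} {x : ℝ} (h : hs (some ⟨n, k⟩) x ≠ 0) :
    (((k : ℕ) : ℝ) ≤ x * 2 ^ n ∧ x * 2 ^ n < ((k : ℕ) : ℝ) + 1) ∧ |hs (some ⟨n, k⟩) x| = 1 := by
  have h2 : (0:ℝ) < 2 ^ n := by positivity
  unfold hs at h ⊢
  simp only [Set.indicator_apply, Set.mem_Ico, div_le_iff₀ h2, lt_div_iff₀ h2] at h ⊢
  by_cases h1 : (((k : ℕ) : ℝ) ≤ x * 2 ^ n ∧ x * 2 ^ n < ((k : ℕ) : ℝ) + 1 / 2)
  · have h3 : ¬ (((k : ℕ) : ℝ) + 1 / 2 ≤ x * 2 ^ n ∧ x * 2 ^ n < ((k : ℕ) : ℝ) + 1) := by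
      rintro ⟨h4, _⟩; linarith [h1.2]
    rw [if_pos h1, if_neg h3]
    exact ⟨⟨h1.1, by linarith [h1.2]⟩, by norm_num⟩
  · rw [if_neg h1] at h ⊢
    by_cases h3 : (((k : ℕ) : ℝ) + 1 / 2 ≤ x * 2 ^ n ∧ x * 2 ^ n < ((k : ℕ) : ℝ) + 1)
    · rw [if_pos h3]
      exact ⟨⟨by linarith [h3.1], h3.2⟩, by norm_num⟩
    · rw [if_neg h3] at h
      simp at h

lemma abs_hs_eq {i : HIx} {x : ℝ} (h : hs i x ≠ 0) : |hs i x| = 1 := by
  cases i with
  | none => simp [hs]
  | some i => exact (hs_ne (n := i.1) (k := i.2) h).2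

lemma abs_hs_le (i : HIx) (x : ℝ) : |hs i x| ≤ 1 := by
  by_cases h : hs i x = 0
  · rw [h]; simp
  · exact (abs_hs_eq h).le

lemma hs_inj {i j : HIx} {x : ℝ} (hi : i ≠ none) (hj : j ≠ none) (h : hs i x ≠ 0)
    (h' : hs j x ≠ 0) (hl : lev i = lev j) : i = j := by
  cases i with
  | none => exact absurd rfl hi
  | some i =>
    cases j with
    | none => exact absurd rfl hj
    | some j =>
      obtain ⟨n, k⟩ := i
      obtain ⟨m, l⟩ := j
      have hnm : n = m := hl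
      subst hnm
      have h1 := (hs_ne h).1
      have h2 := (hs_ne h').1
      have h3 : ((k : ℕ) : ℝ) < ((l : ℕ) : ℝ) + 1 := lt_of_le_of_lt h1.1 h2.2
      have h4 : ((l : ℕ) : ℝ) < ((k : ℕ) : ℝ) + 1 := lt_of_le_of_lt h2.1 h1.2
      have h5 : (k : ℕ) < (l : ℕ) + 1 := by exact_mod_cast h3
      have h6 : (l : ℕ) < (k : ℕ) + 1 := by exact_mod_cast h4
      have h7 : k = l := Fin.ext (by omega)
      rw [h7]

/-- the sum over the active indices -/
lemma act_sum {β : ℝ} (hβ : 1 < β) (A : Finset HIx) (x : ℝ) (m : ℕ)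
    (hm : ∀ i ∈ A, hs i x ≠ 0 → lev i ≤ m) :
    ∑ i ∈ A, β ^ lev i * |hs i x| ≤ (1 + β / (β - 1)) * β ^ m := by
  classical
  have hβ0 : 0 < β := by linarith
  have hβ1 : 0 < β - 1 := by linarith
  have e1 : ∑ i ∈ A, β ^ lev i * |hs i x| = ∑ i ∈ A.filter (fun i => hs i x ≠ 0), β ^ lev i := by
    rw [Finset.sum_filter]
    apply Finset.sum_congr rfl
    intro i _
    split_ifs with h
    · rw [abs_hs_eq h, mul_one]
    · push Not at h
      rw [h]; simp
  rw [e1]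
  set B := A.filter (fun i => hs i x ≠ 0) with hB
  have e2 : ∑ i ∈ B, β ^ lev i ≤ 1 + ∑ i ∈ B.erase none, β ^ lev i := by
    by_cases hn : none ∈ B
    · rw [← Finset.add_sum_erase B _ hn]
      simp [lev]
    · rw [Finset.erase_eq_of_notMem hn]
      linarith
  have e3 : ∑ i ∈ B.erase none, β ^ lev i ≤ ∑ n ∈ Finset.range (m + 1), β ^ n := by
    have hinj : Set.InjOn lev (B.erase none : Finset HIx) := by
      intro i hi j hj hl
      rw [Finset.mem_coe, Finset.mem_erase, hB, Finset.mem_filter] at hi hj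
      exact hs_inj hi.1 hj.1 hi.2.2 hj.2.2 hl
    rw [← Finset.sum_image (f := fun n => β ^ n) hinj]
    apply Finset.sum_le_sum_of_subset_of_nonneg
    · intro n hn
      obtain ⟨i, hi, rfl⟩ := Finset.mem_image.mp hn
      rw [Finset.mem_erase, hB, Finset.mem_filter] at hi
      exact Finset.mem_range.mpr (Nat.lt_succ_of_le (hm i hi.2.1 hi.2.2))
    · intro n _ _; positivity
  have e4 : ∑ n ∈ Finset.range (m + 1), β ^ n ≤ β / (β - 1) * β ^ m := by
    rw [geom_sum_eq hβ.ne', div_mul_eq_mul_div]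
    apply div_le_div_of_nonneg_right _ hβ1.le
    rw [pow_succ]; linarith
  have e5 : (1:ℝ) ≤ β ^ m := one_le_pow₀ hβ.le
  have : (1 + β / (β - 1)) * β ^ m = β ^ m + β / (β - 1) * β ^ m := by ring
  rw [this]
  linarith

/-- the constant -/
noncomputable def cst (p : ℝ) : ℝ := 1 + (2:ℝ) ^ (1 / p) / ((2:ℝ) ^ (1 / p) - 1)

lemma beta_gt {p : ℝ} (hp : 1 < p) : 1 < (2:ℝ) ^ (1 / p) :=
  Real.one_lt_rpow (by norm_num) (by positivity)

lemma cst_pos {p : ℝ} (hp : 1 < p) : 0 < cst p := by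
  have h := beta_gt hp
  unfold cst
  have : 0 < (2:ℝ) ^ (1 / p) - 1 := by linarith
  positivity

lemma pt_bound {𝕜 : Type} [RCLike 𝕜] {p : ℝ} (hp : 1 < p) (A : Finset HIx) (ε : HIx → 𝕜)
    (hε : ∀ i, ‖ε i‖ ≤ 1) (x : ℝ) :
    ‖∑ i ∈ A, ε i * (((2 : ℝ) ^ ((lev i : ℝ) / p) * hs i x : ℝ) : 𝕜)‖ ^ p ≤
      cst p ^ p * ∑ i ∈ A, (2:ℝ) ^ lev i * |hs i x| := by
  classical
  have hβ := beta_gt hp
  have hp0 : 0 < p := by linarith
  set β := (2:ℝ) ^ (1 / p) with hβdef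
  have hpow : ∀ n : ℕ, (2:ℝ) ^ ((n : ℝ) / p) = β ^ n := by
    intro n
    rw [hβdef, ← Real.rpow_natCast, ← Real.rpow_mul (by norm_num)]
    congr 1
    ring
  have hpow2 : ∀ n : ℕ, (β ^ n) ^ p = (2:ℝ) ^ n := by
    intro n
    rw [← hpow n, ← Real.rpow_mul (by norm_num), div_mul_cancel₀ _ hp0.ne', Real.rpow_natCast]
  have h1 : ‖∑ i ∈ A, ε i * (((2 : ℝ) ^ ((lev i : ℝ) / p) * hs i x : ℝ) : 𝕜)‖ ≤
      ∑ i ∈ A, β ^ lev i * |hs i x| := by
    refine (norm_sum_le _ _).trans (Finset.sum_le_sum (fun i _ => ?_))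
    rw [norm_mul, RCLike.norm_ofReal, abs_mul, hpow, abs_of_pos (by positivity : 0 < β ^ lev i)]
    calc ‖ε i‖ * (β ^ lev i * |hs i x|) ≤ 1 * (β ^ lev i * |hs i x|) :=
          mul_le_mul_of_nonneg_right (hε i) (by positivity)
      _ = _ := one_mul _
  by_cases hB : (A.filter (fun i => hs i x ≠ 0)).Nonempty
  · obtain ⟨j, hj, hmax⟩ := Finset.exists_max_image _ (fun i => lev i) hB
    have hm : ∀ i ∈ A, hs i x ≠ 0 → lev i ≤ lev j := by
      intro i hi hx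
      exact hmax i (Finset.mem_filter.mpr ⟨hi, hx⟩)
    have h2 := act_sum hβ A x (lev j) hm
    have h3 : ‖∑ i ∈ A, ε i * (((2 : ℝ) ^ ((lev i : ℝ) / p) * hs i x : ℝ) : 𝕜)‖ ≤
        cst p * β ^ lev j := h1.trans h2
    have h4 : (cst p * β ^ lev j) ^ p = cst p ^ p * (2:ℝ) ^ lev j := by
      rw [Real.mul_rpow (cst_pos hp).le (by positivity), hpow2]
    calc _ ≤ (cst p * β ^ lev j) ^ p := Real.rpow_le_rpow (norm_nonneg _) h3 hp0.le
      _ = cst p ^ p * (2:ℝ) ^ lev j := h4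
      _ ≤ _ := by
        apply mul_le_mul_of_nonneg_left _ (Real.rpow_nonneg (cst_pos hp).le _)
        have hj' := Finset.mem_filter.mp hj
        have h5 : (2:ℝ) ^ lev j * |hs j x| ≤ ∑ i ∈ A, (2:ℝ) ^ lev i * |hs i x| :=
          Finset.single_le_sum (f := fun i => (2:ℝ) ^ lev i * |hs i x|)
            (fun i _ => by positivity) hj'.1
        rwa [abs_hs_eq hj'.2, mul_one] at h5
  · have hz : ∀ i ∈ A, hs i x = 0 := by
      intro i hi
      by_contra hne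
      exact hB ⟨i, Finset.mem_filter.mpr ⟨hi, hne⟩⟩
    have h2 : ∑ i ∈ A, ε i * (((2 : ℝ) ^ ((lev i : ℝ) / p) * hs i x : ℝ) : 𝕜) = 0 := by
      apply Finset.sum_eq_zero
      intro i hi
      rw [hz i hi]; simp
    rw [h2, norm_zero, Real.zero_rpow hp0.ne']
    apply mul_nonneg (Real.rpow_nonneg (cst_pos hp).le _)
    exact Finset.sum_nonneg (fun i _ => by positivity)

instance : IsFiniteMeasure leb := by
  unfold leb; infer_instance

lemma integrable_hs (i : HIx) : Integrable (hs i) leb := by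
  refine (integrable_const (1:ℝ)).mono' (meas_hs i).aestronglyMeasurable ?_
  exact Filter.Eventually.of_forall (fun x => by rw [Real.norm_eq_abs]; exact abs_hs_le i x)

lemma int_abs_hs (i : HIx) : ∫ x, |hs i x| ∂leb ≤ 1 / (2:ℝ) ^ lev i := by
  cases i with
  | none => simp [hs, lev, leb]
  | some i =>
    obtain ⟨n, k⟩ := i
    have h2 : (0:ℝ) < 2 ^ n := by positivity
    set S := Set.Ico (((k : ℕ) : ℝ) / 2 ^ n) ((((k : ℕ) : ℝ) + 1) / 2 ^ n) with hS
    have h3 : ∫ x, |hs (some ⟨n, k⟩) x| ∂leb ≤ ∫ x, S.indicator (fun _ => (1:ℝ)) x ∂leb := by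
      apply integral_mono_of_nonneg
      · exact Filter.Eventually.of_forall (fun x => abs_nonneg _)
      · exact (integrable_const (1:ℝ)).indicator measurableSet_Ico
      · refine Filter.Eventually.of_forall (fun x => ?_)
        by_cases hx : hs (some ⟨n, k⟩) x = 0
        · show |hs (some ⟨n, k⟩) x| ≤ _
          rw [hx, abs_zero]
          exact Set.indicator_nonneg (fun _ _ => zero_le_one) x
        · have h4 := hs_ne hx
          show |hs (some ⟨n, k⟩) x| ≤ _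
          rw [h4.2, Set.indicator_of_mem]
          rw [hS, Set.mem_Ico, div_le_iff₀ h2, lt_div_iff₀ h2]
          exact h4.1
    refine h3.trans ?_
    rw [integral_indicator measurableSet_Ico, setIntegral_const, smul_eq_mul, mul_one]
    have h5 : leb.real S ≤ (volume : Measure ℝ).real S := by
      unfold leb
      rw [measureReal_restrict_apply measurableSet_Ico]
      exact measureReal_mono Set.inter_subset_left (by rw [hS]; exact measure_Ico_lt_top.ne)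
    refine h5.trans ?_
    rw [hS, Real.volume_real_Ico_of_le (by gcongr; linarith)]
    apply le_of_eq
    show _ = 1 / (2:ℝ) ^ n
    field_simp
    ring

lemma dem1 {𝕜 : Type} [RCLike 𝕜] {p : ℝ} (hp : 1 < p) (A : Finset HIx) (ε : HIx → 𝕜)
    (hε : ∀ i, ‖ε i‖ ≤ 1) :
    (∫ x, ‖∑ i ∈ A, ε i * (((2 : ℝ) ^ ((lev i : ℝ) / p) * hs i x : ℝ) : 𝕜)‖ ^ p ∂leb) ^ (1 / p) ≤
        cst p * (A.card : ℝ) ^ (1 / p) := by
  have hp0 : 0 < p := by linarith
  have hint : Integrable (fun x => cst p ^ p * ∑ i ∈ A, (2:ℝ) ^ lev i * |hs i x|) leb := by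
    apply Integrable.const_mul
    exact integrable_finsetSum _ (fun i _ => ((integrable_hs i).abs).const_mul _)
  have h1 : ∫ x, ‖∑ i ∈ A, ε i * (((2 : ℝ) ^ ((lev i : ℝ) / p) * hs i x : ℝ) : 𝕜)‖ ^ p ∂leb ≤
      ∫ x, cst p ^ p * ∑ i ∈ A, (2:ℝ) ^ lev i * |hs i x| ∂leb := by
    apply integral_mono_of_nonneg _ hint
    · exact Filter.Eventually.of_forall (fun x => pt_bound hp A ε hε x)
    · exact Filter.Eventually.of_forall (fun x => Real.rpow_nonneg (norm_nonneg _) _)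
  have h2 : ∫ x, cst p ^ p * ∑ i ∈ A, (2:ℝ) ^ lev i * |hs i x| ∂leb ≤ cst p ^ p * (A.card : ℝ) := by
    rw [integral_const_mul]
    apply mul_le_mul_of_nonneg_left _ (Real.rpow_nonneg (cst_pos hp).le _)
    rw [integral_finsetSum _ (fun i _ => ((integrable_hs i).abs).const_mul _)]
    have : (A.card : ℝ) = ∑ i ∈ A, (1:ℝ) := by simp
    rw [this]
    apply Finset.sum_le_sum
    intro i _
    rw [integral_const_mul]
    have h3 := int_abs_hs i
    have h4 : (0:ℝ) < 2 ^ lev i := by positivity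
    calc (2:ℝ) ^ lev i * ∫ x, |hs i x| ∂leb ≤ 2 ^ lev i * (1 / 2 ^ lev i) :=
          mul_le_mul_of_nonneg_left h3 h4.le
      _ = 1 := by field_simp
  have h0 : 0 ≤ ∫ x, ‖∑ i ∈ A, ε i * (((2 : ℝ) ^ ((lev i : ℝ) / p) * hs i x : ℝ) : 𝕜)‖ ^ p ∂leb :=
    integral_nonneg (fun x => Real.rpow_nonneg (norm_nonneg _) _)
  calc _ ≤ (cst p ^ p * (A.card : ℝ)) ^ (1 / p) :=
        Real.rpow_le_rpow h0 (h1.trans h2) (by positivity)
    _ = cst p * (A.card : ℝ) ^ (1 / p) := by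
        rw [Real.mul_rpow (Real.rpow_nonneg (cst_pos hp).le _) (by positivity),
          ← Real.rpow_mul (cst_pos hp).le, mul_one_div_cancel hp0.ne', Real.rpow_one]

lemma exists_unimod {𝕜 : Type} [RCLike 𝕜] (z : 𝕜) : ∃ e : 𝕜, ‖e‖ ≤ 1 ∧ e * z = ((‖z‖ : ℝ) : 𝕜) := by
  by_cases hz : z = 0
  · exact ⟨0, by simp, by simp [hz]⟩
  · refine ⟨(starRingEnd 𝕜) z / ((‖z‖ : ℝ) : 𝕜), ?_, ?_⟩
    · rw [norm_div, RCLike.norm_conj, RCLike.norm_ofReal, abs_norm,
        div_self (norm_ne_zero_iff.mpr hz)]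
    · have hz' : ((‖z‖ : ℝ) : 𝕜) ≠ 0 := by
        rw [Ne, RCLike.ofReal_eq_zero]; exact norm_ne_zero_iff.mpr hz
      rw [div_mul_eq_mul_div, RCLike.conj_mul, sq, mul_div_assoc, div_self hz', mul_one]

lemma dem2 {𝕜 : Type} [RCLike 𝕜] {p : ℝ} (hp : 1 < p) (A : Finset HIx) (f : ℝ → 𝕜)
    (hf : MemLp f (ENNReal.ofReal p) leb) :
    ∑ i ∈ A, (2 : ℝ) ^ ((lev i : ℝ) * (1 - 1 / p)) * ‖cf i f‖ ≤
        cst (p / (p - 1)) * (A.card : ℝ) ^ (1 - 1 / p) * (∫ x, ‖f x‖ ^ p ∂leb) ^ (1 / p) := by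
  classical
  have hp0 : 0 < p := by linarith
  have hp1 : 0 < p - 1 := by linarith
  set q := p / (p - 1) with hq
  have hq1 : 1 < q := by rw [hq, lt_div_iff₀ hp1]; linarith
  have hq0 : 0 < q := by linarith
  have hqi : 1 / q = 1 - 1 / p := by rw [hq]; field_simp
  have hpq : q.HolderConjugate p := by
    rw [Real.holderConjugate_iff]
    refine ⟨hq1, ?_⟩
    rw [inv_eq_one_div, hqi, inv_eq_one_div]; ring
  choose u hu1 hu2 using fun i => exists_unimod (cf i f : 𝕜)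
  set g : ℝ → 𝕜 := fun x => ∑ i ∈ A, u i * (((2 : ℝ) ^ ((lev i : ℝ) / q) * hs i x : ℝ) : 𝕜) with hg
  have hone : (1 : ℝ≥0∞) ≤ ENNReal.ofReal p := by
    rw [← ENNReal.ofReal_one]; exact ENNReal.ofReal_le_ofReal hp.le
  have hfi : Integrable f leb := hf.integrable hone
  have hhf : ∀ i, Integrable (fun x => ((hs i x : ℝ) : 𝕜) * f x) leb := by
    intro i
    refine hfi.bdd_mul (c := 1) ?_ ?_
    · exact (RCLike.continuous_ofReal.measurable.comp (meas_hs i)).aestronglyMeasurable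
    · exact Filter.Eventually.of_forall (fun x => by
        rw [RCLike.norm_ofReal]; exact abs_hs_le i x)
  have hgm : MemLp g (ENNReal.ofReal q) leb := by
    have : ∀ i ∈ A, MemLp (fun x => u i * (((2 : ℝ) ^ ((lev i : ℝ) / q) * hs i x : ℝ) : 𝕜))
        (ENNReal.ofReal q) leb := by
      intro i _
      have hmeas : AEStronglyMeasurable
          (fun x => u i * (((2 : ℝ) ^ ((lev i : ℝ) / q) * hs i x : ℝ) : 𝕜)) leb := by
        apply AEStronglyMeasurable.const_mul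
        exact (RCLike.continuous_ofReal.measurable.comp
          ((meas_hs i).const_mul _)).aestronglyMeasurable
      refine MemLp.of_bound hmeas ((2 : ℝ) ^ ((lev i : ℝ) / q)) ?_
      refine Filter.Eventually.of_forall (fun x => ?_)
      rw [norm_mul, RCLike.norm_ofReal, abs_mul,
        abs_of_pos (by positivity : 0 < (2 : ℝ) ^ ((lev i : ℝ) / q))]
      have h1 := abs_hs_le i x
      have h2 := hu1 i
      have h3 : 0 < (2 : ℝ) ^ ((lev i : ℝ) / q) := by positivity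
      calc ‖u i‖ * ((2 : ℝ) ^ ((lev i : ℝ) / q) * |hs i x|) ≤
            1 * ((2 : ℝ) ^ ((lev i : ℝ) / q) * 1) := by gcongr
        _ = _ := by ring
    have h := memLp_finsetSum A this
    exact h
  have hsum : ((∑ i ∈ A, (2 : ℝ) ^ ((lev i : ℝ) * (1 - 1 / p)) * ‖cf i f‖ : ℝ) : 𝕜) =
      ∫ x, g x * f x ∂leb := by
    have h1 : ∀ x, g x * f x = ∑ i ∈ A, (u i * (((2 : ℝ) ^ ((lev i : ℝ) / q) : ℝ) : 𝕜)) *
        (((hs i x : ℝ) : 𝕜) * f x) := by
      intro x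
      rw [hg]
      simp only []
      rw [Finset.sum_mul]
      apply Finset.sum_congr rfl
      intro i _
      push_cast
      ring
    simp_rw [h1]
    rw [integral_finsetSum _ (fun i _ => (hhf i).const_mul _), RCLike.ofReal_sum]
    apply Finset.sum_congr rfl
    intro i _
    rw [integral_const_mul]
    have h2 : ∫ x, ((hs i x : ℝ) : 𝕜) * f x ∂leb = cf i f := rfl
    have h3 : (lev i : ℝ) * (1 - 1 / p) = (lev i : ℝ) / q := by
      rw [← hqi]; ring
    rw [h2, h3, RCLike.ofReal_mul, ← hu2 i]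
    ring
  have hnn : 0 ≤ ∑ i ∈ A, (2 : ℝ) ^ ((lev i : ℝ) * (1 - 1 / p)) * ‖cf i f‖ :=
    Finset.sum_nonneg (fun i _ => by positivity)
  calc ∑ i ∈ A, (2 : ℝ) ^ ((lev i : ℝ) * (1 - 1 / p)) * ‖cf i f‖
      = ‖((∑ i ∈ A, (2 : ℝ) ^ ((lev i : ℝ) * (1 - 1 / p)) * ‖cf i f‖ : ℝ) : 𝕜)‖ := by
        rw [RCLike.norm_ofReal, abs_of_nonneg hnn]
    _ = ‖∫ x, g x * f x ∂leb‖ := by rw [hsum]
    _ ≤ ∫ x, ‖g x * f x‖ ∂leb := norm_integral_le_integral_norm _
    _ = ∫ x, ‖g x‖ * ‖f x‖ ∂leb := by simp_rw [norm_mul]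
    _ ≤ (∫ x, ‖g x‖ ^ q ∂leb) ^ (1 / q) * (∫ x, ‖f x‖ ^ p ∂leb) ^ (1 / p) :=
        integral_mul_norm_le_Lp_mul_Lq hpq hgm hf
    _ ≤ (cst q * (A.card : ℝ) ^ (1 / q)) * (∫ x, ‖f x‖ ^ p ∂leb) ^ (1 / p) := by
        apply mul_le_mul_of_nonneg_right (dem1 hq1 A u hu1)
        exact Real.rpow_nonneg (integral_nonneg (fun x => Real.rpow_nonneg (norm_nonneg _) _)) _
    _ = _ := by rw [hqi]

theorem dem : S_DEM := by
  intro 𝕜 _ p hp
  have hp1 : 0 < p - 1 := by linarith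
  have hq1 : 1 < p / (p - 1) := by rw [lt_div_iff₀ hp1]; linarith
  refine ⟨max (cst p) (cst (p / (p - 1))), lt_max_of_lt_left (cst_pos hp), ?_, ?_⟩
  · intro A ε hε
    refine (dem1 hp A ε hε).trans ?_
    exact mul_le_mul_of_nonneg_right (le_max_left _ _) (by positivity)
  · intro A f hf
    refine (dem2 hp A f hf).trans ?_
    apply mul_le_mul_of_nonneg_right _
      (Real.rpow_nonneg (integral_nonneg (fun x => Real.rpow_nonneg (norm_nonneg _) _)) _)
    exact mul_le_mul_of_nonneg_right (le_max_right _ _) (by positivity)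

end Pool.Agent.Y681.HG
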