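import Pool.Agent.Y119.HG.Defs2

set_option autoImplicit false

/-! The change of basis (job HG-RM). -/

namespace Pool.Agent.Y681.HG

open Matrix Pool.Agent.Y119.HG

section

variable {L : Type} [Field L] {m : ℕ}

lemma rm_inl (i : Fin m) (l : Fin (2 * m)) : Rm m L (Sum.inl i) l = if (l : ℕ) = i then 1 else 0 := rfl

lemma rm_inr (j : Fin m) (l : Fin (2 * m)) : Rm m L (Sum.inr j) l =
    if (j : ℕ) + l + 1 = 2 * m then (-1) ^ (j : ℕ) else 0 := rfl

lemma jn_app {n : ℕ} (i j : Fin n) : Jn n L i j = if (i : ℕ) + j + 1 = n then (-1) ^ (i : ℕ) else 0 := rfl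

/-- the column of row `inl i` -/
def cI (i : Fin m) : Fin (2 * m) := ⟨i, by omega⟩

/-- the column of row `inr j` -/
def cJ (j : Fin m) : Fin (2 * m) := ⟨2 * m - 1 - j, by omega⟩

lemma row_inl (i : Fin m) (f : Fin (2 * m) → L) : ∑ l, Rm m L (Sum.inl i) l * f l = f (cI i) := by
  rw [Finset.sum_eq_single (cI i)]
  · rw [rm_inl, if_pos (show ((cI i : Fin (2 * m)) : ℕ) = i from rfl), one_mul]
  · intro l _ hl
    rw [rm_inl, if_neg, zero_mul]
    intro h
    exact hl (Fin.ext h)
  · intro h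
    exact absurd (Finset.mem_univ _) h

lemma row_inr (j : Fin m) (f : Fin (2 * m) → L) :
    ∑ l, Rm m L (Sum.inr j) l * f l = (-1) ^ (j : ℕ) * f (cJ j) := by
  rw [Finset.sum_eq_single (cJ j)]
  · rw [rm_inr, if_pos]
    show (j : ℕ) + (2 * m - 1 - j) + 1 = 2 * m
    omega
  · intro l _ hl
    rw [rm_inr, if_neg, zero_mul]
    intro h
    apply hl
    apply Fin.ext
    show (l : ℕ) = 2 * m - 1 - j
    omega
  · intro h
    exact absurd (Finset.mem_univ _) h

lemma row_inl' (i : Fin m) (f : Fin (2 * m) → L) : ∑ l, f l * Rm m L (Sum.inl i) l = f (cI i) := by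
  rw [← row_inl i f]
  exact Finset.sum_congr rfl fun _ _ => mul_comm _ _

lemma row_inr' (j : Fin m) (f : Fin (2 * m) → L) :
    ∑ l, f l * Rm m L (Sum.inr j) l = (-1) ^ (j : ℕ) * f (cJ j) := by
  rw [← row_inr j f]
  exact Finset.sum_congr rfl fun _ _ => mul_comm _ _

lemma sgn_sq (n : ℕ) : (-1 : L) ^ n * (-1) ^ n = 1 := by
  rw [← mul_pow, neg_one_mul, neg_neg, one_pow]

lemma sgn_compl {n j : ℕ} (h : j + 1 ≤ 2 * n) : (-1 : L) ^ j * (-1) ^ (2 * n - 1 - j) = -1 := by
  rw [← pow_add]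
  have h1 : j + (2 * n - 1 - j) = 2 * (n - 1) + 1 := by omega
  rw [h1, pow_succ, pow_mul]
  simp

lemma rm_mul : Rm m L * (Rm m L)ᵀ = 1 := by
  ext s s'
  rw [Matrix.mul_apply]
  simp only [Matrix.transpose_apply]
  rcases s with i | j
  · rw [row_inl]
    rcases s' with i' | j'
    · rw [rm_inl, Matrix.one_apply]
      by_cases h : i = i'
      · rw [if_pos (show ((cI i : Fin (2 * m)) : ℕ) = i' from congrArg Fin.val h),
          if_pos (congrArg Sum.inl h)]
      · rw [if_neg, if_neg]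
        · exact fun h' => h (Sum.inl_injective h')
        · exact fun h' => h (Fin.ext h')
    · rw [rm_inr, if_neg, Matrix.one_apply, if_neg]
      · exact Sum.inl_ne_inr
      · show ¬ ((j' : ℕ) + (i : ℕ) + 1 = 2 * m)
        omega
  · rw [row_inr]
    rcases s' with i' | j'
    · rw [rm_inl, if_neg, Matrix.one_apply, if_neg, mul_zero]
      · exact Sum.inr_ne_inl
      · show ¬ ((2 * m - 1 - j : ℕ) = (i' : ℕ))
        omega
    · rw [rm_inr, Matrix.one_apply]
      by_cases h : j = j'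
      · subst h
        rw [if_pos rfl, if_pos, sgn_sq]
        show (j : ℕ) + (2 * m - 1 - j) + 1 = 2 * m
        omega
      · rw [if_neg, if_neg, mul_zero]
        · exact fun h' => h (Sum.inr_injective h')
        · intro h'
          apply h
          apply Fin.ext
          have h'' : (j' : ℕ) + (2 * m - 1 - j) + 1 = 2 * m := h'
          omega

lemma rm_mul' : (Rm m L)ᵀ * Rm m L = 1 :=
  (Matrix.mul_eq_one_comm_of_equiv (finSumFinEquiv.trans (finCongr (by omega : m + m = 2 * m)))).1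
    rm_mul

lemma rm_jn (s : S m) (l : Fin (2 * m)) : (Rm m L * Jn (2 * m) L) s l = match s with
    | Sum.inl i => if (i : ℕ) + l + 1 = 2 * m then (-1) ^ (i : ℕ) else 0
    | Sum.inr j => if (l : ℕ) = j then -1 else 0 := by
  rw [Matrix.mul_apply]
  rcases s with i | j
  · rw [row_inl (f := fun x => Jn (2 * m) L x l)]
    rfl
  · rw [row_inr (f := fun x => Jn (2 * m) L x l), jn_app]
    show (-1) ^ (j : ℕ) * (if (2 * m - 1 - j) + (l : ℕ) + 1 = 2 * m then (-1 : L) ^ (2 * m - 1 - (j : ℕ)) else 0) =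
      if (l : ℕ) = j then (-1 : L) else 0
    by_cases h : (l : ℕ) = j
    · rw [if_pos h, if_pos (by omega), sgn_compl (by omega)]
    · rw [if_neg h, if_neg (by omega), mul_zero]

lemma rm_jn_rm : Rm m L * Jn (2 * m) L * (Rm m L)ᵀ = Om m L := by
  ext s s'
  rw [Matrix.mul_apply]
  simp only [Matrix.transpose_apply]
  rcases s' with i' | j'
  · rw [row_inl', rm_jn]
    rcases s with i | j
    · show (if (i : ℕ) + (i' : ℕ) + 1 = 2 * m then (-1 : L) ^ (i : ℕ) else 0) = 0
      rw [if_neg (by omega)]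
    · show (if (i' : ℕ) = j then (-1 : L) else 0) = (-1 : Matrix (Fin m) (Fin m) L) j i'
      rw [Matrix.neg_apply, Matrix.one_apply]
      by_cases h : j = i'
      · rw [if_pos h, if_pos (congrArg _ h.symm)]
      · rw [if_neg h, if_neg (fun h' => h (Fin.ext h'.symm)), neg_zero]
  · rw [row_inr', rm_jn]
    rcases s with i | j
    · show (-1) ^ (j' : ℕ) * (if (i : ℕ) + (2 * m - 1 - j') + 1 = 2 * m then (-1 : L) ^ (i : ℕ) else 0) =
        (1 : Matrix (Fin m) (Fin m) L) i j'
      rw [Matrix.one_apply]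
      by_cases h : i = j'
      · subst h
        rw [if_pos rfl, if_pos (by omega), sgn_sq]
      · rw [if_neg h, if_neg, mul_zero]
        intro h'
        apply h
        apply Fin.ext
        omega
    · show (-1) ^ (j' : ℕ) * (if (2 * m - 1 - j' : ℕ) = j then (-1 : L) else 0) = 0
      rw [if_neg (by omega), mul_zero]

lemma jn_jn : Jn (2 * m) L * Jn (2 * m) L = -1 := by
  ext i l
  rw [Matrix.mul_apply, Finset.sum_eq_single (⟨2 * m - 1 - i, by omega⟩ : Fin (2 * m))]
  · rw [jn_app, jn_app, if_pos (by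
      show (i : ℕ) + (2 * m - 1 - i) + 1 = 2 * m
      omega), Matrix.neg_apply, Matrix.one_apply]
    show (-1 : L) ^ (i : ℕ) * (if (2 * m - 1 - i : ℕ) + (l : ℕ) + 1 = 2 * m then
      (-1 : L) ^ (2 * m - 1 - i : ℕ) else 0) = - (if i = l then (1 : L) else 0)
    by_cases h : i = l
    · subst h
      rw [if_pos (by omega), if_pos rfl, sgn_compl (by omega)]
    · rw [if_neg, if_neg h, mul_zero, neg_zero]
      intro h'
      apply h
      apply Fin.ext
      omega
  · intro k _ hk
    rw [jn_app, if_neg, zero_mul]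
    intro h
    apply hk
    apply Fin.ext
    show (k : ℕ) = 2 * m - 1 - i
    omega
  · intro h
    exact absurd (Finset.mem_univ _) h

end

/-- RM: the change of basis -/
theorem t_RM : T_RM := fun _ _ _ => ⟨rm_mul, rm_mul', rm_jn_rm, jn_jn⟩

end Pool.Agent.Y681.HG
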